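import Mathlib
import Pool.Agent.H94.IC.Targets1
import Pool.Agent.H4.IC.RMV

/-!
# IC: module SIG, global good sign functions off an embedded disc
-/

open MeasureTheory Set Filter Topology Metric
open scoped ENNReal NNReal ContDiff RealInnerProductSpace Real

namespace Pool.Agent.H27.IC

open Pool.Agent.H94.IC Pool.Agent.H4.IC

theorem gr_shrink {Y : Set E} {p : E} {T : E ≃ₗᵢ[ℝ] E} {r h : ℝ} {g : ℝ × ℝ → ℝ}
    (hG : GrBox Y p T r h g) (N : Set E) (hN : N ∈ 𝓝 p) :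
    ∃ r' h', GrBox Y p T r' h' g ∧ Bx T p r' h' ⊆ N ∧ Bx T p r' h' ⊆ Bx T p r h := by
  obtain ⟨ε, hε, hb⟩ := Metric.mem_nhds_iff.1 hN
  obtain ⟨h', hh'⟩ : ∃ h', h' = min h (ε / 4) := ⟨_, rfl⟩
  have h'0 : 0 < h' := by rw [hh']; exact lt_min hG.hpos (by positivity)
  have h'1 : h' ≤ h := by rw [hh']; exact min_le_left _ _
  have h'2 : h' ≤ ε / 4 := by rw [hh']; exact min_le_right _ _
  have hSo : IsOpen {a : ℝ × ℝ | |a.1| < r ∧ |a.2| < r} := by
    have c1 : Continuous fun a : ℝ × ℝ => |a.1| := by fun_prop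
    have c2 : Continuous fun a : ℝ × ℝ => |a.2| := by fun_prop
    exact (isOpen_lt c1 continuous_const).inter (isOpen_lt c2 continuous_const)
  have h0S : ((0, 0) : ℝ × ℝ) ∈ {a : ℝ × ℝ | |a.1| < r ∧ |a.2| < r} := by
    constructor <;> simpa using hG.rpos
  have hgc : ContinuousAt g (0, 0) := hG.cont.continuousAt (hSo.mem_nhds h0S)
  obtain ⟨δ, hδ, hδg⟩ := Metric.continuousAt_iff.1 hgc h' h'0
  obtain ⟨r', hr'⟩ : ∃ r', r' = min r (min δ (ε / 4)) := ⟨_, rfl⟩
  have r'0 : 0 < r' := by rw [hr']; exact lt_min hG.rpos (lt_min hδ (by positivity))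
  have r'1 : r' ≤ r := by rw [hr']; exact min_le_left _ _
  have r'2 : r' ≤ δ := by rw [hr']; exact (min_le_right _ _).trans (min_le_left _ _)
  have r'3 : r' ≤ ε / 4 := by rw [hr']; exact (min_le_right _ _).trans (min_le_right _ _)
  have hsub : Bx T p r' h' ⊆ Bx T p r h := fun x hx =>
    ⟨hx.1.trans_le r'1, hx.2.1.trans_le r'1, hx.2.2.trans_le h'1⟩
  refine ⟨r', h', ⟨r'0, h'0, ?_, hG.zero, ?_, ?_⟩, ?_, hsub⟩
  · exact hG.cont.mono fun a ha => ⟨ha.1.trans_le r'1, ha.2.trans_le r'1⟩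
  · intro a ha1 ha2
    have h1 : dist a (0, 0) < δ := by
      rw [Prod.dist_eq, max_lt_iff]
      exact ⟨by simpa [Real.dist_eq] using ha1.trans_le r'2,
        by simpa [Real.dist_eq] using ha2.trans_le r'2⟩
    have h2 := hδg h1
    rw [hG.zero, Real.dist_eq, sub_zero] at h2
    exact h2
  · exact fun x hx => hG.eq x (hsub hx)
  · refine (Bx_small T p (ε := ε / 2) (by linarith) (by linarith)).trans ?_
    rw [mul_div_cancel₀ ε two_ne_zero]
    exact hb

theorem upper_conn {Y : Set E} {p : E} {T : E ≃ₗᵢ[ℝ] E} {r h : ℝ} {g : ℝ × ℝ → ℝ}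
    (hG : GrBox Y p T r h g) :
    IsPreconnected {x | x ∈ Bx T p r h ∧ g ((T (x - p)) 0, (T (x - p)) 1) < (T (x - p)) 2} := by
  have hI : IsPreconnected (Sq r ×ˢ Ioo (0 : ℝ) 1) :=
    ((Sq_convex r).prod (convex_Ioo 0 1)).isPreconnected
  have hgc : ContinuousOn (fun q : (ℝ × ℝ) × ℝ => g q.1) (Sq r ×ˢ Ioo (0 : ℝ) 1) :=
    hG.cont.comp continuous_fst.continuousOn fun q hq => hq.1
  have hφ : ContinuousOn (fun q : (ℝ × ℝ) × ℝ => pt T p q.1 (g q.1 + q.2 * (h - g q.1)))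
      (Sq r ×ˢ Ioo (0 : ℝ) 1) := by
    refine (pt_cont T p).comp_continuousOn (f := fun q : (ℝ × ℝ) × ℝ =>
      (q.1, g q.1 + q.2 * (h - g q.1))) ?_
    exact continuous_fst.continuousOn.prodMk
      (hgc.add (continuous_snd.continuousOn.mul (continuousOn_const.sub hgc)))
  have hT : ∀ a t, (T (pt T p a t - p)) 0 = a.1 ∧ (T (pt T p a t - p)) 1 = a.2 ∧
      (T (pt T p a t - p)) 2 = t := by
    intro a t; rw [T_pt]; exact ⟨rfl, rfl, rfl⟩
  have he : {x | x ∈ Bx T p r h ∧ g ((T (x - p)) 0, (T (x - p)) 1) < (T (x - p)) 2}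
      = (fun q : (ℝ × ℝ) × ℝ => pt T p q.1 (g q.1 + q.2 * (h - g q.1))) ''
        (Sq r ×ˢ Ioo (0 : ℝ) 1) := by
    ext x
    constructor
    · rintro ⟨hx, hlt⟩
      obtain ⟨a, ha, t, ht, rfl⟩ := mem_Bx_coord hx
      rw [(hT a t).1, (hT a t).2.1, (hT a t).2.2] at hlt
      have hb := abs_lt.1 (hG.bd a ha.1 ha.2)
      have hpos : 0 < h - g a := by linarith [hb.2]
      refine ⟨(a, (t - g a) / (h - g a)), ⟨ha, ?_, ?_⟩, ?_⟩
      · exact div_pos (by linarith) hpos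
      · rw [div_lt_one hpos]; linarith [ht.2]
      · show pt T p a (g a + (t - g a) / (h - g a) * (h - g a)) = pt T p a t
        rw [div_mul_cancel₀ _ hpos.ne']; congr 1; ring
    · rintro ⟨⟨a, τ⟩, ⟨ha, hτ⟩, rfl⟩
      have hb := abs_lt.1 (hG.bd a ha.1 ha.2)
      have hpos : 0 < h - g a := by linarith [hb.2]
      have e1 : 0 < τ * (h - g a) := mul_pos hτ.1 hpos
      have e2 : τ * (h - g a) < h - g a := by nlinarith [hτ.2]
      refine ⟨(pt_mem_Bx T p).2 ⟨ha, ?_, ?_⟩, ?_⟩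
      · show -h < g a + τ * (h - g a)
        linarith [hb.1]
      · show g a + τ * (h - g a) < h
        linarith
      · show g ((T (pt T p a (g a + τ * (h - g a)) - p)) 0,
          (T (pt T p a (g a + τ * (h - g a)) - p)) 1) < (T (pt T p a (g a + τ * (h - g a)) - p)) 2
        rw [(hT _ _).1, (hT _ _).2.1, (hT _ _).2.2]
        show g a < _
        linarith
  rw [he]
  exact hI.image _ hφ

theorem lower_conn {Y : Set E} {p : E} {T : E ≃ₗᵢ[ℝ] E} {r h : ℝ} {g : ℝ × ℝ → ℝ}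
    (hG : GrBox Y p T r h g) :
    IsPreconnected {x | x ∈ Bx T p r h ∧ (T (x - p)) 2 < g ((T (x - p)) 0, (T (x - p)) 1)} := by
  have hI : IsPreconnected (Sq r ×ˢ Ioo (0 : ℝ) 1) :=
    ((Sq_convex r).prod (convex_Ioo 0 1)).isPreconnected
  have hgc : ContinuousOn (fun q : (ℝ × ℝ) × ℝ => g q.1) (Sq r ×ˢ Ioo (0 : ℝ) 1) :=
    hG.cont.comp continuous_fst.continuousOn fun q hq => hq.1
  have hφ : ContinuousOn (fun q : (ℝ × ℝ) × ℝ => pt T p q.1 (g q.1 - q.2 * (h + g q.1)))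
      (Sq r ×ˢ Ioo (0 : ℝ) 1) := by
    refine (pt_cont T p).comp_continuousOn (f := fun q : (ℝ × ℝ) × ℝ =>
      (q.1, g q.1 - q.2 * (h + g q.1))) ?_
    exact continuous_fst.continuousOn.prodMk
      (hgc.sub (continuous_snd.continuousOn.mul (continuousOn_const.add hgc)))
  have hT : ∀ a t, (T (pt T p a t - p)) 0 = a.1 ∧ (T (pt T p a t - p)) 1 = a.2 ∧
      (T (pt T p a t - p)) 2 = t := by
    intro a t; rw [T_pt]; exact ⟨rfl, rfl, rfl⟩
  have he : {x | x ∈ Bx T p r h ∧ (T (x - p)) 2 < g ((T (x - p)) 0, (T (x - p)) 1)}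
      = (fun q : (ℝ × ℝ) × ℝ => pt T p q.1 (g q.1 - q.2 * (h + g q.1))) ''
        (Sq r ×ˢ Ioo (0 : ℝ) 1) := by
    ext x
    constructor
    · rintro ⟨hx, hlt⟩
      obtain ⟨a, ha, t, ht, rfl⟩ := mem_Bx_coord hx
      rw [(hT a t).1, (hT a t).2.1, (hT a t).2.2] at hlt
      have hb := abs_lt.1 (hG.bd a ha.1 ha.2)
      have hpos : 0 < h + g a := by linarith [hb.1]
      refine ⟨(a, (g a - t) / (h + g a)), ⟨ha, ?_, ?_⟩, ?_⟩
      · exact div_pos (by linarith) hpos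
      · rw [div_lt_one hpos]; linarith [ht.1]
      · show pt T p a (g a - (g a - t) / (h + g a) * (h + g a)) = pt T p a t
        rw [div_mul_cancel₀ _ hpos.ne']; congr 1; ring
    · rintro ⟨⟨a, τ⟩, ⟨ha, hτ⟩, rfl⟩
      have hb := abs_lt.1 (hG.bd a ha.1 ha.2)
      have hpos : 0 < h + g a := by linarith [hb.1]
      have e1 : 0 < τ * (h + g a) := mul_pos hτ.1 hpos
      have e2 : τ * (h + g a) < h + g a := by nlinarith [hτ.2]
      refine ⟨(pt_mem_Bx T p).2 ⟨ha, ?_, ?_⟩, ?_⟩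
      · show -h < g a - τ * (h + g a)
        linarith
      · show g a - τ * (h + g a) < h
        linarith [hb.2]
      · show (T (pt T p a (g a - τ * (h + g a)) - p)) 2 <
          g ((T (pt T p a (g a - τ * (h + g a)) - p)) 0,
          (T (pt T p a (g a - τ * (h + g a)) - p)) 1)
        rw [(hT _ _).1, (hT _ _).2.1, (hT _ _).2.2]
        show _ < g a
        linarith
  rw [he]
  exact hI.image _ hφ

theorem lc_const {Y W A : Set E} {s : E → ℤˣ} (h : LC Y W s) (hA : A ⊆ W \ Y)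
    (hc : IsPreconnected A) : ∃ c, ∀ x ∈ A, s x = c := by
  rcases A.eq_empty_or_nonempty with he | ⟨a, ha⟩
  · exact ⟨1, fun x hx => absurd hx (by rw [he]; exact notMem_empty x)⟩
  · refine ⟨s a, fun x hx => ?_⟩
    refine hc.constant (f := s) ?_ hx ha
    intro y hy
    refine ContinuousAt.continuousWithinAt ?_
    have h1 := h y (hA hy)
    have h2 : s =ᶠ[𝓝 y] fun _ => s y := h1
    exact (continuousAt_const (y := s y)).congr h2.symm

/-- the two sides of a box -/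
theorem sides {Y W : Set E} {s : E → ℤˣ} (hs : LC Y W s) {p : E} {T : E ≃ₗᵢ[ℝ] E} {r h : ℝ}
    {g : ℝ × ℝ → ℝ} (hG : GrBox Y p T r h g) (hsub : Bx T p r h ⊆ W) :
    ∃ c c' : ℤˣ, ∀ x ∈ Bx T p r h,
      (g ((T (x - p)) 0, (T (x - p)) 1) < (T (x - p)) 2 → s x = c) ∧
      ((T (x - p)) 2 < g ((T (x - p)) 0, (T (x - p)) 1) → s x = c') := by
  obtain ⟨c, hc⟩ := lc_const hs (A := {x | x ∈ Bx T p r h ∧
    g ((T (x - p)) 0, (T (x - p)) 1) < (T (x - p)) 2})
    (fun x hx => ⟨hsub hx.1, fun hY => absurd ((hG.eq x hx.1).1 hY) (ne_of_gt hx.2)⟩)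
    (upper_conn hG)
  obtain ⟨c', hc'⟩ := lc_const hs (A := {x | x ∈ Bx T p r h ∧
    (T (x - p)) 2 < g ((T (x - p)) 0, (T (x - p)) 1)})
    (fun x hx => ⟨hsub hx.1, fun hY => absurd ((hG.eq x hx.1).1 hY) (ne_of_lt hx.2)⟩)
    (lower_conn hG)
  exact ⟨c, c', fun x hx => ⟨fun h1 => hc x ⟨hx, h1⟩, fun h1 => hc' x ⟨hx, h1⟩⟩⟩

theorem un_aux (d d' : ℤˣ) (h : d ≠ d') : d' = - d := by
  rcases Int.units_eq_one_or d with h1 | h1 <;> rcases Int.units_eq_one_or d' with h2 | h2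
  · exact absurd (h1.trans h2.symm) h
  · rw [h1, h2]
  · rw [h1, h2, neg_neg]
  · exact absurd (h1.trans h2.symm) h

theorem noflip_mul (hD : T_DCH) {Y W : Set E} (hW : IsOpen W) {s s' : E → ℤˣ}
    (hs : LC Y W s) (hs' : LC Y W s') {q : E} (hq : q ∈ W) (hf : Flip Y s q) (hf' : Flip Y s' q) :
    NoFlip Y (fun x => s x * s' x) q := by
  obtain ⟨T, r, h, g, hG, c, hc⟩ := hf
  obtain ⟨r', h', hG', hbW, hbb⟩ := gr_shrink hG W (hW.mem_nhds hq)
  obtain ⟨d, d', hd⟩ := sides hs' hG' hbW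
  have hne : d ≠ d' := by
    intro he
    have hno : NoFlip Y s' q := by
      refine ⟨T, r', h', g, hG', d, fun x hx hxY => ?_⟩
      rcases lt_trichotomy (g ((T (x - q)) 0, (T (x - q)) 1)) ((T (x - q)) 2) with h1 | h1 | h1
      · exact (hd x hx).1 h1
      · exact absurd ((hG'.eq x hx).2 h1.symm) hxY
      · rw [he]; exact (hd x hx).2 h1
    exact (hD Y W s' q hW hq hs' ⟨T, r', h', g, hG'⟩).2 ⟨hf', hno⟩
  have hdd : d' = - d := un_aux d d' hne
  refine ⟨T, r', h', g, hG', c * d, fun x hx hxY => ?_⟩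
  rcases lt_trichotomy (g ((T (x - q)) 0, (T (x - q)) 1)) ((T (x - q)) 2) with h1 | h1 | h1
  · show s x * s' x = c * d
    rw [(hd x hx).1 h1, (hc x (hbb hx)).1 h1]
  · exact absurd ((hG'.eq x hx).2 h1.symm) hxY
  · show s x * s' x = c * d
    rw [(hd x hx).2 h1, (hc x (hbb hx)).2 h1, hdd, neg_mul_neg]

theorem cx_cont : Continuous cx := by
  unfold cx
  exact continuous_pi fun k => Complex.continuous_ofReal.comp (EuclideanSpace.proj k).continuous

theorem an_closed {Y : Set E} {x : E} (h : AN Y x) (hx : x ∉ Y) : ∀ᶠ y in 𝓝 x, y ∉ Y := by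
  obtain ⟨ρ, F, hρ, hF, hY, -⟩ := h
  have h1 : ContinuousAt (fun y : E => F (cx y)) x :=
    ContinuousAt.comp (f := cx) (hF.1.continuousAt (isOpen_ball.mem_nhds (mem_ball_self hρ)))
      cx_cont.continuousAt
  have h2 : F (cx x) ≠ 0 := fun h0 => hx ((hY x (mem_ball_self hρ)).2.2 h0)
  have h3 : ∀ᶠ y in 𝓝 x, cx y ∈ ball (cx x) ρ :=
    cx_cont.continuousAt.preimage_mem_nhds (isOpen_ball.mem_nhds (mem_ball_self hρ))
  filter_upwards [h1.eventually_ne h2, h3] with y hy1 hy2 hyY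
  exact hy1 ((hY y hy2).2.1 hyY)

theorem flatDisc_compact : IsCompact flatDisc := by
  refine Metric.isCompact_of_isClosed_isBounded ?_ ?_
  · have c : ∀ i : Fin 3, Continuous fun y : E => y i := fun i => (EuclideanSpace.proj i).continuous
    exact (isClosed_eq (c 2) continuous_const).inter
      (isClosed_le (((c 0).pow 2).add ((c 1).pow 2)) continuous_const)
  · refine (Metric.isBounded_closedBall (x := (0 : E)) (r := 1)).subset fun y hy => ?_
    rw [mem_closedBall, dist_zero_right, EuclideanSpace.norm_eq, Fin.sum_univ_three]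
    rw [Real.sqrt_le_one]
    simp only [Real.norm_eq_abs, sq_abs]
    have h1 := hy.1
    have h2 := hy.2
    rw [h1]
    linarith

theorem sig (hGDC : T_GDC) (hRMG : T_RMG) (hD : T_DCH) : T_SIG := by
  intro Φ δ Y hδ hsub hAN
  have hK : IsCompact (Φ '' flatDisc) :=
    flatDisc_compact.image_of_continuousOn
      (Φ.continuousOn.mono ((self_subset_cthickening flatDisc).trans hsub))
  have hO : IsOpen (Φ '' flatDisc)ᶜ := hK.isClosed.isOpen_compl
  have hANW : ∀ W : Set E, W ⊆ (Φ '' flatDisc)ᶜ → ∀ p ∈ W, AN Y p := fun W hW p hp =>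
    hAN p (hW hp)
  refine hGDC Φ δ Y (fun W s => Good Y W s) hδ hsub ⟨?_, ?_, ?_, ?_, ?_, ?_⟩
  · intro W hW hWO hne
    exact (hRMG Y W hW (hANW W hWO)).2.1 W hW Subset.rfl hne
  · intro W s hW hWO h
    refine ⟨fun x hx => ?_, fun p hp hg => ?_⟩
    · obtain ⟨W', -, hx', -, hP⟩ := h x hx.1
      exact hP.lc x ⟨hx', hx.2⟩
    · obtain ⟨W', -, hx', -, hP⟩ := h p hp
      exact hP.flip p hx' hg
  · intro W s s' hW hWO hP he
    refine ⟨fun x hx => ?_, fun p hp hg => ?_⟩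
    · filter_upwards [hP.lc x hx, hW.mem_nhds hx.1, an_closed (hANW W hWO x hx.1) hx.2]
        with y h1 h2 h3
      rw [← he y ⟨h2, h3⟩, h1, he x hx]
    · obtain ⟨T, r, h, g, hG, c, hc⟩ := hP.flip p hp hg
      obtain ⟨r', h', hG', hbW, hbb⟩ := gr_shrink hG W (hW.mem_nhds hp)
      refine ⟨T, r', h', g, hG', c, fun x hx => ⟨fun h1 => ?_, fun h1 => ?_⟩⟩
      · rw [← he x ⟨hbW hx, fun hY => absurd ((hG'.eq x hx).1 hY) (ne_of_gt h1)⟩]
        exact (hc x (hbb hx)).1 h1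
      · rw [← he x ⟨hbW hx, fun hY => absurd ((hG'.eq x hx).1 hY) (ne_of_lt h1)⟩]
        exact (hc x (hbb hx)).2 h1
  · intro W s hW hWO hP
    refine ⟨fun x hx => ?_, fun p hp hg => ?_⟩
    · filter_upwards [hP.lc x hx] with y h1
      rw [h1]
    · obtain ⟨T, r, h, g, hG, c, hc⟩ := hP.flip p hp hg
      refine ⟨T, r, h, g, hG, -c, fun x hx => ⟨fun h1 => ?_, fun h1 => ?_⟩⟩
      · show - s x = - c
        rw [(hc x hx).1 h1]
      · show - s x = - -c
        rw [(hc x hx).2 h1]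
  · intro W s s' hW hWO hs hs' x hx
    have hLC : LC Y W (fun x => s x * s' x) := by
      intro y hy
      filter_upwards [hs.lc y hy, hs'.lc y hy] with z h1 h2
      rw [h1, h2]
    have hno : ∀ q ∈ W, GrPt Y q → ¬ Flip Y (fun x => s x * s' x) q := by
      intro q hq hg hf
      exact (hD Y W _ q hW hq hLC hg).2
        ⟨hf, noflip_mul hD hW hs.lc hs'.lc hq (hs.flip q hq hg) (hs'.flip q hq hg)⟩
    obtain ⟨W', hW', hxW', hsubW, c, hc⟩ := ((hRMG Y W hW (hANW W hWO)).2.2 _ hLC hno).1 x hx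
    refine ⟨W', hW', hxW', hsubW, ?_⟩
    rcases Int.units_eq_one_or c with h1 | h1
    · left
      intro y hy
      have h2 := hc y hy
      rw [h1] at h2
      have h3 : s y * s' y = 1 := h2
      rcases Int.units_eq_one_or (s y) with a | a <;> rcases Int.units_eq_one_or (s' y) with b | b <;>
        rw [a, b] at h3 ⊢ <;> simp_all
    · right
      intro y hy
      have h2 := hc y hy
      rw [h1] at h2
      have h3 : s y * s' y = -1 := h2
      rcases Int.units_eq_one_or (s y) with a | a <;> rcases Int.units_eq_one_or (s' y) with b | b <;>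
        rw [a, b] at h3 ⊢ <;> simp_all
  · intro x hx
    obtain ⟨W', s, h1, h2, h3, h4⟩ := (hRMG Y _ hO (hANW _ Subset.rfl)).1 x hx _ (hO.mem_nhds hx)
    exact ⟨W', s, h1, h2, h3, h4⟩

end Pool.Agent.H27.IC
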