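import Mathlib
import Pool.Agent.H94.IC.Targets1
import Pool.Agent.H65.VG.SMO

/-!
# IC: module GHC, closure properties of `GH`
-/

open MeasureTheory Set Filter Topology Metric
open scoped ENNReal NNReal ContDiff RealInnerProductSpace Real

namespace Pool.Agent.H27.IC

open Pool.Agent.H94.IC

/-- differentiability along a line at all points of the line inside `U` -/
theorem line_diff {U : Set C3} {F : C3 → ℂ} (hF : GH U F) (z v : C3) (ζ : ℂ)
    (h : z + ζ • v ∈ U) : DifferentiableAt ℂ (fun t : ℂ => F (z + t • v)) ζ := by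
  have h1 := hF.2 (z + ζ • v) h v
  have h2 : (fun t : ℂ => F (z + t • v)) = fun t : ℂ => (fun s : ℂ => F (z + ζ • v + s • v))
      (t - ζ) := by
    funext t
    show F _ = F _
    congr 1
    rw [add_assoc, ← add_smul]
    congr 2
    ring
  rw [h2]
  have h3 : DifferentiableAt ℂ (fun s : ℂ => F (z + ζ • v + s • v)) (ζ - ζ) := by
    rw [sub_self]; exact h1
  exact DifferentiableAt.comp ζ (g := fun s : ℂ => F (z + ζ • v + s • v)) h3 (by fun_prop)

theorem line_open {U : Set C3} (hU : IsOpen U) (z v : C3) : IsOpen {t : ℂ | z + t • v ∈ U} :=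
  hU.preimage (by fun_prop : Continuous fun t : ℂ => z + t • v)

theorem dd_at {U : Set C3} {F : C3 → ℂ} (hF : GH U F) (z v : C3) (ζ : ℂ)
    (h : z + ζ • v ∈ U) : HasDerivAt (fun t : ℂ => F (z + t • v)) (DD v F (z + ζ • v)) ζ := by
  have h1 := (hF.2 (z + ζ • v) h v).hasDerivAt
  have h2 : (fun t : ℂ => F (z + t • v)) = fun t : ℂ => (fun s : ℂ => F (z + ζ • v + s • v))
      (t - ζ) := by
    funext t
    show F _ = F _
    congr 1
    rw [add_assoc, ← add_smul]
    congr 2
    ring
  rw [h2]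
  have h3 : HasDerivAt (fun s : ℂ => F (z + ζ • v + s • v)) (DD v F (z + ζ • v)) (ζ - ζ) := by
    rw [sub_self]; exact h1
  exact h3.comp_sub_const ζ ζ

open Pool.Agent.H65.VG in
theorem cauchy_line {U : Set C3} {F : C3 → ℂ} (hU : IsOpen U) (hF : GH U F) (x v : C3) (r : ℝ)
    (hr : 0 < r) (hb : ∀ ζ : ℂ, ‖ζ‖ ≤ r → x + ζ • v ∈ U) :
    DD v F x = ∫ θ in (0 : ℝ)..2 * π, cco r θ • F (x + circleMap 0 r θ • v) := by
  have hsub : Metric.closedBall (0 : ℂ) r ⊆ {t : ℂ | x + t • v ∈ U} := by
    intro ζ hζ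
    exact hb ζ (by simpa using hζ)
  have hd : DifferentiableOn ℂ (fun ζ : ℂ => F (x + ζ • v)) {t : ℂ | x + t • v ∈ U} :=
    fun ζ hζ => (line_diff hF x v ζ hζ).differentiableWithinAt
  have key := Complex.two_pi_I_inv_smul_circleIntegral_sub_sq_inv_smul_of_differentiable
    (line_open hU x v) hsub hd (Metric.mem_ball_self hr)
  unfold DD
  rw [← key]
  unfold circleIntegral
  rw [← intervalIntegral.integral_smul]
  apply intervalIntegral.integral_congr
  intro θ _
  simp only [sub_zero, cco, smul_smul]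

open Pool.Agent.H65.VG in
theorem dd_cont {U : Set C3} {F : C3 → ℂ} (hU : IsOpen U) (hF : GH U F) (v : C3) :
    ContinuousOn (DD v F) U := by
  intro z hz
  apply ContinuousAt.continuousWithinAt
  obtain ⟨δ, r, hδ, hr, hb, hin⟩ := exists_radii hU hz v
  have hK : IsCompact (Metric.closedBall z (2 * δ)) := isCompact_closedBall _ _
  obtain ⟨M, hM⟩ := hK.exists_bound_of_continuousOn (hF.1.mono hb)
  have hev : (fun x => ∫ θ in (0 : ℝ)..2 * π, cco r θ • F (x + circleMap 0 r θ • v))
      =ᶠ[𝓝 z] fun x => DD v F x := by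
    filter_upwards [Metric.closedBall_mem_nhds z hδ] with x hx
    exact (cauchy_line hU hF x v r hr fun ζ hζ => hb (hin x hx ζ hζ)).symm
  refine ContinuousAt.congr ?_ hev
  apply intervalIntegral.continuousAt_of_dominated_interval (bound := fun θ => ‖cco r θ‖ * M)
  · filter_upwards [Metric.closedBall_mem_nhds z hδ] with x hx
    apply Continuous.aestronglyMeasurable
    refine (continuous_cco hr).smul ?_
    refine hF.1.comp_continuous (continuous_arg x v r) ?_
    intro θ
    exact hb (hin x hx _ (norm_circleMap_zero' hr θ))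
  · filter_upwards [Metric.closedBall_mem_nhds z hδ] with x hx
    refine Eventually.of_forall fun θ _ => ?_
    rw [norm_smul]
    exact mul_le_mul_of_nonneg_left (hM _ (hin x hx _ (norm_circleMap_zero' hr θ))) (norm_nonneg _)
  · exact (((continuous_cco hr).norm).mul continuous_const).intervalIntegrable _ _
  · refine Eventually.of_forall fun θ _ => ?_
    have h1 : z + circleMap 0 r θ • v ∈ U :=
      hb (hin z (Metric.mem_closedBall_self hδ.le) _ (norm_circleMap_zero' hr θ))
    have h2 : ContinuousAt F (z + circleMap 0 r θ • v) :=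
      (hF.1).continuousAt (hU.mem_nhds h1)
    have h3 : ContinuousAt (fun x : C3 => F (x + circleMap 0 r θ • v)) z :=
      ContinuousAt.comp (f := fun x : C3 => x + circleMap 0 r θ • v) h2 (by fun_prop)
    exact h3.const_smul (cco r θ)

/-- coordinates -/
def ph (a : ℂ × ℂ × ℂ) : C3 := ![a.1, a.2.1, a.2.2]

theorem ph_cont : Continuous ph := by
  unfold ph
  refine continuous_pi fun i => ?_
  fin_cases i
  · show Continuous fun a : ℂ × ℂ × ℂ => a.1
    fun_prop
  · show Continuous fun a : ℂ × ℂ × ℂ => a.2.1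
    fun_prop
  · show Continuous fun a : ℂ × ℂ × ℂ => a.2.2
    fun_prop

theorem ph_surj (z : C3) : ph (z 0, z 1, z 2) = z := by
  funext i; fin_cases i <;> rfl

/-- Osgood's lemma -/
theorem osgood {U : Set C3} {F : C3 → ℂ} (hU : IsOpen U) (hF : GH U F) :
    DifferentiableOn ℂ F U := by
  have hc0 := dd_cont hU hF (Pi.single 0 1)
  have hc1 := dd_cont hU hF (Pi.single 1 1)
  have hc2 := dd_cont hU hF (Pi.single 2 1)
  have hO : IsOpen (ph ⁻¹' U) := hU.preimage ph_cont
  have e0 : ∀ a : ℂ × ℂ × ℂ, ∀ t : ℂ, ph (t, a.2) = ph a + (t - a.1) • (Pi.single 0 1 : C3) := by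
    intro a t; funext i; fin_cases i <;> simp [ph]
  have e1 : ∀ a : ℂ × ℂ × ℂ, ∀ t : ℂ, ph (a.1, (t, a.2.2))
      = ph a + (t - a.2.1) • (Pi.single 1 1 : C3) := by
    intro a t; funext i; fin_cases i <;> simp [ph]
  have e2 : ∀ a : ℂ × ℂ × ℂ, ∀ t : ℂ, ph (a.1, (a.2.1, t))
      = ph a + (t - a.2.2) • (Pi.single 2 1 : C3) := by
    intro a t; funext i; fin_cases i <;> simp [ph]
  have gen : ∀ (w : C3) (y : C3) (c : ℂ), y ∈ U →
      HasDerivAt (fun t : ℂ => F (y + (t - c) • w)) (DD w F y) c := by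
    intro w y c hy
    have h3 : HasDerivAt (fun s : ℂ => F (y + s • w)) (DD w F (y + (0 : ℂ) • w)) 0 :=
      dd_at hF y w 0 (by simpa using hy)
    rw [zero_smul, add_zero] at h3
    have h3' : HasDerivAt (fun s : ℂ => F (y + s • w)) (DD w F y) (c - c) := by
      rw [sub_self]; exact h3
    exact h3'.comp_sub_const c c
  have d0 : ∀ a ∈ ph ⁻¹' U, HasDerivAt (fun t : ℂ => F (ph (t, a.2)))
      (DD (Pi.single 0 1) F (ph a)) a.1 := by
    intro a ha
    have e : (fun t : ℂ => F (ph (t, a.2))) = fun t : ℂ => F (ph a + (t - a.1)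
        • (Pi.single 0 1 : C3)) := funext fun t => congrArg F (e0 a t)
    rw [e]
    exact gen _ _ _ ha
  have d1 : ∀ a ∈ ph ⁻¹' U, HasDerivAt (fun t : ℂ => F (ph (a.1, (t, a.2.2))))
      (DD (Pi.single 1 1) F (ph a)) a.2.1 := by
    intro a ha
    have e : (fun t : ℂ => F (ph (a.1, (t, a.2.2)))) = fun t : ℂ => F (ph a + (t - a.2.1)
        • (Pi.single 1 1 : C3)) := funext fun t => congrArg F (e1 a t)
    rw [e]
    exact gen _ _ _ ha
  have d2 : ∀ a ∈ ph ⁻¹' U, HasDerivAt (fun t : ℂ => F (ph (a.1, (a.2.1, t))))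
      (DD (Pi.single 2 1) F (ph a)) a.2.2 := by
    intro a ha
    have e : (fun t : ℂ => F (ph (a.1, (a.2.1, t)))) = fun t : ℂ => F (ph a + (t - a.2.2)
        • (Pi.single 2 1 : C3)) := funext fun t => congrArg F (e2 a t)
    rw [e]
    exact gen _ _ _ ha
  -- the last two coordinates
  have s12 : ∀ a ∈ ph ⁻¹' U, HasStrictFDerivAt (fun b : ℂ × ℂ => F (ph (a.1, b)))
      ((ContinuousLinearMap.toSpanSingleton ℂ (DD (Pi.single 1 1) F (ph a))).coprod
        (ContinuousLinearMap.toSpanSingleton ℂ (DD (Pi.single 2 1) F (ph a)))) a.2 := by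
    intro a ha
    have hcont : Continuous fun b : ℂ × ℂ => ph (a.1, b) :=
      ph_cont.comp (continuous_const.prodMk continuous_id)
    have hmem : ∀ᶠ b in 𝓝 a.2, ph (a.1, b) ∈ U :=
      hcont.continuousAt.preimage_mem_nhds (hU.mem_nhds ha)
    have key := hasStrictFDerivAt_uncurry_coprod (𝕜 := ℂ) (u := a.2)
      (f := fun b c => F (ph (a.1, (b, c))))
      (f₁ := fun b c => ContinuousLinearMap.toSpanSingleton ℂ
        (DD (Pi.single 1 1) F (ph (a.1, (b, c)))))
      (f₂ := fun b c => ContinuousLinearMap.toSpanSingleton ℂ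
        (DD (Pi.single 2 1) F (ph (a.1, (b, c))))) ?_ ?_ ?_ ?_
    · exact key
    · filter_upwards [hmem] with b hb
      exact (d1 (a.1, b) hb).hasFDerivAt
    · filter_upwards [hmem] with b hb
      exact (d2 (a.1, b) hb).hasFDerivAt
    · have h1 : ContinuousAt (fun b : ℂ × ℂ => DD (Pi.single 1 1) F (ph (a.1, b))) a.2 :=
        ContinuousAt.comp (f := fun b : ℂ × ℂ => ph (a.1, b))
          (hc1.continuousAt (hU.mem_nhds ha)) hcont.continuousAt
      exact (ContinuousLinearMap.toSpanSingletonCLE.continuous.continuousAt).comp h1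
    · have h1 : ContinuousAt (fun b : ℂ × ℂ => DD (Pi.single 2 1) F (ph (a.1, b))) a.2 :=
        ContinuousAt.comp (f := fun b : ℂ × ℂ => ph (a.1, b))
          (hc2.continuousAt (hU.mem_nhds ha)) hcont.continuousAt
      exact (ContinuousLinearMap.toSpanSingletonCLE.continuous.continuousAt).comp h1
  have s3 : ∀ a ∈ ph ⁻¹' U, DifferentiableAt ℂ (fun a : ℂ × ℂ × ℂ => F (ph a)) a := by
    intro a ha
    have hmem : ∀ᶠ b in 𝓝 a, ph b ∈ U :=
      ph_cont.continuousAt.preimage_mem_nhds (hU.mem_nhds ha)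
    have key := hasStrictFDerivAt_uncurry_coprod (𝕜 := ℂ) (u := a)
      (f := fun b c => F (ph (b, c)))
      (f₁ := fun b c => ContinuousLinearMap.toSpanSingleton ℂ
        (DD (Pi.single 0 1) F (ph (b, c))))
      (f₂ := fun b c => (ContinuousLinearMap.toSpanSingleton ℂ
        (DD (Pi.single 1 1) F (ph (b, c)))).coprod (ContinuousLinearMap.toSpanSingleton ℂ
        (DD (Pi.single 2 1) F (ph (b, c))))) ?_ ?_ ?_ ?_
    · exact key.hasFDerivAt.differentiableAt
    · filter_upwards [hmem] with b hb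
      exact (d0 b hb).hasFDerivAt
    · filter_upwards [hmem] with b hb
      exact (s12 b hb).hasFDerivAt
    · have h1 : ContinuousAt (fun b : ℂ × ℂ × ℂ => DD (Pi.single 0 1) F (ph b)) a :=
        ContinuousAt.comp (f := ph)
          (hc0.continuousAt (hU.mem_nhds ha)) ph_cont.continuousAt
      exact (ContinuousLinearMap.toSpanSingletonCLE.continuous.continuousAt).comp h1
    · have h1 : ContinuousAt (fun b : ℂ × ℂ × ℂ => DD (Pi.single 1 1) F (ph b)) a :=
        ContinuousAt.comp (f := ph)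
          (hc1.continuousAt (hU.mem_nhds ha)) ph_cont.continuousAt
      have h2 : ContinuousAt (fun b : ℂ × ℂ × ℂ => DD (Pi.single 2 1) F (ph b)) a :=
        ContinuousAt.comp (f := ph)
          (hc2.continuousAt (hU.mem_nhds ha)) ph_cont.continuousAt
      have h1' : ContinuousAt (fun b : ℂ × ℂ × ℂ => ContinuousLinearMap.toSpanSingleton ℂ
          (DD (Pi.single 1 1) F (ph b))) a :=
        (ContinuousLinearMap.toSpanSingletonCLE.continuous.continuousAt).comp h1
      have h2' : ContinuousAt (fun b : ℂ × ℂ × ℂ => ContinuousLinearMap.toSpanSingleton ℂ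
          (DD (Pi.single 2 1) F (ph b))) a :=
        (ContinuousLinearMap.toSpanSingletonCLE.continuous.continuousAt).comp h2
      exact ((ContinuousLinearMap.coprodEquivL (𝕜 := ℂ) (E := ℂ) (F := ℂ) (G := ℂ)
        ℂ).continuous.continuousAt).comp (h1'.prodMk h2')
  intro z hz
  apply DifferentiableAt.differentiableWithinAt
  have h1 := s3 (z 0, z 1, z 2) (by show ph _ ∈ U; rw [ph_surj]; exact hz)
  have h2 : F = (fun a : ℂ × ℂ × ℂ => F (ph a)) ∘ fun z : C3 => (z 0, z 1, z 2) := by
    funext z; show F z = F (ph _); rw [ph_surj]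
  rw [h2]
  exact DifferentiableAt.comp z h1 (by fun_prop)

theorem gh_iff {U : Set C3} {F : C3 → ℂ} (hU : IsOpen U) : GH U F ↔ DifferentiableOn ℂ F U := by
  refine ⟨osgood hU, fun h => ⟨h.continuousOn, fun z hz v => ?_⟩⟩
  have h1 : DifferentiableAt ℂ F (z + (0 : ℂ) • v) := by
    rw [zero_smul, add_zero]; exact h.differentiableAt (hU.mem_nhds hz)
  exact DifferentiableAt.comp (0 : ℂ) (g := F) (f := fun t : ℂ => z + t • v) h1 (by fun_prop)

theorem dd_eq {U : Set C3} {F : C3 → ℂ} (hU : IsOpen U) (h : DifferentiableOn ℂ F U) (z v : C3)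
    (hz : z ∈ U) : HasDerivAt (fun t : ℂ => F (z + t • v)) (fderiv ℂ F z v) 0 ∧
      DD v F z = fderiv ℂ F z v := by
  have h1 : HasFDerivAt F (fderiv ℂ F z) (z + (0 : ℂ) • v) := by
    rw [zero_smul, add_zero]; exact (h.differentiableAt (hU.mem_nhds hz)).hasFDerivAt
  have h2 : HasDerivAt (fun t : ℂ => z + t • v) v 0 := by
    have := ((hasDerivAt_id (0 : ℂ)).smul_const v).const_add z
    simpa using this
  have h3 : HasDerivAt (fun t : ℂ => F (z + t • v)) (fderiv ℂ F z v) 0 :=
    h1.comp_hasDerivAt (0 : ℂ) h2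
  exact ⟨h3, h3.deriv⟩

theorem ghc : T_GHC := by
  intro U hU
  refine ⟨fun c => ⟨continuousOn_const, fun z _ v => by fun_prop⟩, ?_, ?_, ?_, ?_, ?_⟩
  · intro F G hF hG
    exact ⟨⟨hF.1.add hG.1, fun z hz v => (hF.2 z hz v).add (hG.2 z hz v)⟩,
      ⟨hF.1.mul hG.1, fun z hz v => (hF.2 z hz v).mul (hG.2 z hz v)⟩⟩
  · intro F v hF
    rw [gh_iff hU] at hF ⊢
    refine (Pool.Agent.H65.VG.differentiableOn_dir (n := 3) hU hF v).congr fun z hz => ?_
    exact (dd_eq hU hF z v hz).2
  · intro F v z M s hF hs hb hM hv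
    have hM0 : 0 ≤ M := (norm_nonneg _).trans (hM z (mem_ball_self hs))
    have hin : ∀ t : ℂ, ‖t‖ < s → z + t • v ∈ ball z s := by
      intro t ht
      rw [mem_ball, dist_eq_norm, add_sub_cancel_left, norm_smul]
      calc ‖t‖ * ‖v‖ ≤ ‖t‖ * 1 := mul_le_mul_of_nonneg_left hv (norm_nonneg _)
        _ < s := by rw [mul_one]; exact ht
    have key : ∀ s', 0 < s' → s' < s → ‖DD v F z‖ ≤ M / s' := by
      intro s' h0 h1
      have hd : DiffContOnCl ℂ (fun t : ℂ => F (z + t • v)) (ball 0 s') := by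
        refine DifferentiableOn.diffContOnCl fun t ht => ?_
        rw [closure_ball _ h0.ne'] at ht
        have ht' : ‖t‖ ≤ s' := by simpa using ht
        exact (line_diff hF z v t (hb (hin t (by linarith)))).differentiableWithinAt
      refine Complex.norm_deriv_le_of_forall_mem_sphere_norm_le h0 hd fun t ht => ?_
      have ht' : ‖t‖ = s' := by simpa using ht
      exact hM _ (hin t (by linarith))
    by_contra hcon
    push Not at hcon
    have hX : 0 < ‖DD v F z‖ := lt_of_le_of_lt (div_nonneg hM0 hs.le) hcon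
    have h1 : M < ‖DD v F z‖ * s := by rwa [div_lt_iff₀ hs] at hcon
    have h2 : M / ‖DD v F z‖ < s := by rw [div_lt_iff₀ hX]; linarith
    have h3 := key ((M / ‖DD v F z‖ + s) / 2)
      (by have := div_nonneg hM0 hX.le; linarith) (by linarith)
    have h4 : 0 < (M / ‖DD v F z‖ + s) / 2 := by
      have := div_nonneg hM0 hX.le; linarith
    rw [le_div_iff₀ h4] at h3
    have h5 : ‖DD v F z‖ * (M / ‖DD v F z‖) = M := by field_simp
    nlinarith
  · intro F v z hF hz
    rw [gh_iff hU] at hF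
    obtain ⟨h1, h2⟩ := dd_eq hU hF z v hz
    have h3 : fderiv ℂ F z v = ∑ k, v k * DD (Pi.single k 1) F z := by
      have e : v = ∑ k, v k • (Pi.single k 1 : C3) := by
        funext i
        simp [Finset.sum_apply, Pi.single_apply]
      conv_lhs => rw [e, map_sum]
      refine Finset.sum_congr rfl fun k _ => ?_
      rw [map_smul, smul_eq_mul, (dd_eq hU hF z (Pi.single k 1) hz).2]
    rw [← h3]; exact h1
  · intro F G hF hT
    refine ⟨hT.continuousOn (Frequently.of_forall fun n => (hF n).1), fun z hz v => ?_⟩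
    have hc : Continuous fun t : ℂ => z + t • v := by fun_prop
    have h1 : TendstoLocallyUniformlyOn (fun n => F n ∘ fun t : ℂ => z + t • v)
        (G ∘ fun t : ℂ => z + t • v) atTop {t : ℂ | z + t • v ∈ U} :=
      hT.comp _ (fun t ht => ht) hc.continuousOn
    have h2 := h1.differentiableOn (Eventually.of_forall fun n t ht =>
      (line_diff (hF n) z v t ht).differentiableWithinAt) (line_open hU z v)
    exact h2.differentiableAt ((line_open hU z v).mem_nhds (by simpa using hz))

end Pool.Agent.H27.IC
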