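import Mathlib
import Pool.Agent.H94.IC.Targets2

/-!
# IC: elementary facts on gradients, `pd`, `Lu`
-/

open MeasureTheory Set Filter Topology Metric
open scoped ENNReal NNReal ContDiff RealInnerProductSpace Real

namespace Pool.Agent.H27.IC

open Pool.Agent.H94.IC

theorem gr_inner (f : E → ℝ) (x v : E) : ⟪gr f x, v⟫ = fderiv ℝ f x v := by
  unfold gr gradient
  rw [InnerProductSpace.toDual_symm_apply]

theorem gr_apply (f : E → ℝ) (x : E) (k : Fin 3) : (gr f x) k = pd k f x := by
  have h := gr_inner f x (ev k)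
  rw [EuclideanSpace.inner_single_right] at h
  simpa [pd] using h

theorem inner_eq (v w : E) : ⟪v, w⟫ = ∑ k : Fin 3, v k * w k := by
  rw [PiLp.inner_apply]
  refine Finset.sum_congr rfl fun k _ => ?_
  simp [mul_comm]

/-- the derivation is the derivative along the gradient -/
theorem Lu_eq (u f : E → ℝ) (x : E) : Lu u f x = fderiv ℝ f x (gr u x) := by
  rw [← gr_inner, inner_eq]
  unfold Lu
  refine Finset.sum_congr rfl fun k _ => ?_
  rw [gr_apply, gr_apply, mul_comm]

end Pool.Agent.H27.IC
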