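import Mathlib
import Pool.Agent.H94.IC.Targets1

/-!
# IC: module HNK, Hankel determinants of power sums
-/

open MeasureTheory Set Filter Topology Metric
open scoped ENNReal NNReal ContDiff RealInnerProductSpace

namespace Pool.Agent.H27.IC

open Pool.Agent.H94.IC

theorem hnk_entry (m : Multiset ℂ) (d : ℕ) (i j : Fin d) :
    (m.map (· ^ ((i : ℕ) + (j : ℕ)))).sum
      = ∑ r : m.toFinset, (r.1 ^ (i : ℕ)) * ((m.count r.1 : ℂ) * r.1 ^ (j : ℕ)) := by
  rw [Finset.sum_multiset_map_count, ← Finset.sum_coe_sort]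
  refine Finset.sum_congr rfl fun r _ => ?_
  rw [nsmul_eq_mul, pow_add]; ring

theorem hnk : T_HNK := by
  intro m d
  constructor
  · intro hcard
    have hH : (Matrix.of fun i j : Fin d => (m.map (· ^ ((i : ℕ) + (j : ℕ)))).sum)
        = (Matrix.of fun (i : Fin d) (r : m.toFinset) => r.1 ^ (i : ℕ)) *
          (Matrix.of fun (r : m.toFinset) (j : Fin d) => ((m.count r.1 : ℂ) * r.1 ^ (j : ℕ))) := by
      ext i j
      rw [Matrix.mul_apply]
      simp only [Matrix.of_apply]
      exact hnk_entry m d i j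
    by_contra hdet
    have h1 := Matrix.rank_of_isUnit _ ((Matrix.isUnit_iff_isUnit_det _).2 (isUnit_iff_ne_zero.2 hdet))
    rw [Fintype.card_fin] at h1
    have h2 : (Matrix.of fun i j : Fin d => (m.map (· ^ ((i : ℕ) + (j : ℕ)))).sum).rank
        ≤ (Matrix.of fun (i : Fin d) (r : m.toFinset) => r.1 ^ (i : ℕ)).rank := by
      conv_lhs => rw [hH]
      exact Matrix.rank_mul_le_left _ _
    have h3 := Matrix.rank_le_card_width
      (Matrix.of fun (i : Fin d) (r : m.toFinset) => (r.1 ^ (i : ℕ) : ℂ))
    rw [Fintype.card_coe] at h3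
    omega
  · intro hcard
    have e : Fin d ≃ m.toFinset := Fintype.equivOfCardEq (by rw [Fintype.card_fin, Fintype.card_coe, hcard])
    obtain ⟨e, -⟩ : ∃ e : Fin d ≃ m.toFinset, True := ⟨e, trivial⟩
    have hH : (Matrix.of fun i j : Fin d => (m.map (· ^ ((i : ℕ) + (j : ℕ)))).sum)
        = (Matrix.vandermonde fun l => ((e l).1 : ℂ)).transpose *
          (Matrix.diagonal fun l => (m.count (e l).1 : ℂ)) *
          (Matrix.vandermonde fun l => ((e l).1 : ℂ)) := by
      ext i j
      rw [Matrix.mul_apply]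
      simp only [Matrix.of_apply, Matrix.mul_diagonal, Matrix.transpose_apply,
        Matrix.vandermonde_apply]
      rw [hnk_entry m d i j, ← e.sum_comp]
      refine Finset.sum_congr rfl fun l _ => ?_
      ring
    rw [hH, Matrix.det_mul, Matrix.det_mul, Matrix.det_transpose, Matrix.det_diagonal]
    have hv : (Matrix.vandermonde fun l => ((e l).1 : ℂ)).det ≠ 0 := by
      rw [Matrix.det_vandermonde_ne_zero_iff]
      intro a b hab
      exact e.injective (Subtype.ext hab)
    refine mul_ne_zero (mul_ne_zero hv ?_) hv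
    refine Finset.prod_ne_zero_iff.2 fun l _ => ?_
    have := (e l).2
    rw [Multiset.mem_toFinset] at this
    exact_mod_cast (Multiset.count_pos.2 this).ne'

end Pool.Agent.H27.IC
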