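import Mathlib
import Pool.Agent.H94.IC.Targets2
import Pool.Agent.H27.IC.Grad

/-!
# IC: holomorphic extensions of the words
-/

open MeasureTheory Set Filter Topology Metric
open scoped ENNReal NNReal ContDiff RealInnerProductSpace Real

namespace Pool.Agent.H27.IC

open Pool.Agent.H94.IC

theorem cx_ball (x p : E) (ρ : ℝ) (h : cx x ∈ ball (cx p) ρ) : x ∈ ball p (2 * ρ) := by
  have hρ : 0 < ρ := pos_of_mem_ball h
  have h1 : ∀ k, |x k - p k| < ρ := by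
    intro k
    rw [mem_ball, dist_eq_norm] at h
    have h2 := (norm_le_pi_norm (cx x - cx p) k).trans_lt h
    rw [Pi.sub_apply] at h2
    unfold cx at h2
    rw [← Complex.ofReal_sub, Complex.norm_real, Real.norm_eq_abs] at h2
    exact h2
  rw [mem_ball, EuclideanSpace.dist_eq, Real.sqrt_lt' (by positivity), Fin.sum_univ_three]
  simp only [Real.dist_eq]
  have e : ∀ k, |x k - p k| ^ 2 ≤ ρ ^ 2 := fun k =>
    pow_le_pow_left₀ (abs_nonneg _) (h1 k).le 2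
  nlinarith [e 0, e 1, e 2, sq_pos_of_pos hρ]

theorem hx_sub (hA : T_HXA) (p : E) (ρ : ℝ) (f g : E → ℝ) (hf : HX p ρ f) (hg : HX p ρ g) :
    HX p ρ (fun x => f x - g x) := by
  obtain ⟨h1, h2, h3⟩ := hA p ρ
  have e1 := (h2 (fun _ => -1) g (h1 (-1)) hg).2
  have e2 := (h2 f _ hf e1).1
  exact h3 _ _ e2 fun x _ => by ring

theorem hx_sum3 (hA : T_HXA) (p : E) (ρ : ℝ) (f : Fin 3 → E → ℝ) (hf : ∀ k, HX p ρ (f k)) :
    HX p ρ (fun x => ∑ k : Fin 3, f k x) := by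
  obtain ⟨h1, h2, h3⟩ := hA p ρ
  have e1 := (h2 _ _ (hf 0) (hf 1)).1
  have e2 := (h2 _ _ e1 (hf 2)).1
  exact h3 _ _ e2 fun x _ => by rw [Fin.sum_univ_three]

theorem hx_det (hA : T_HXA) (p : E) (ρ : ℝ) (f : Fin 3 → Fin 3 → E → ℝ)
    (hf : ∀ i j, HX p ρ (f i j)) :
    HX p ρ (fun x => Matrix.det (Matrix.of fun i j => f i j x)) := by
  obtain ⟨h1, h2, h3⟩ := hA p ρ
  have m : ∀ i j k : Fin 3, HX p ρ (fun x => f 0 i x * f 1 j x * f 2 k x) := fun i j k =>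
    (h2 _ _ (h2 _ _ (hf 0 i) (hf 1 j)).2 (hf 2 k)).2
  have e1 := hx_sub hA p ρ _ _ (m 0 1 2) (m 0 2 1)
  have e2 := hx_sub hA p ρ _ _ e1 (m 1 0 2)
  have e3 := (h2 _ _ e2 (m 1 2 0)).1
  have e4 := (h2 _ _ e3 (m 2 0 1)).1
  have e5 := hx_sub hA p ρ _ _ e4 (m 2 1 0)
  refine h3 _ _ e5 fun x _ => ?_
  rw [Matrix.det_fin_three]
  simp only [Matrix.of_apply]

/-- all words are extendable -/
theorem hx_wd (hA : T_HXA) (hP : T_HXP) (hI : T_INC) {N : ℕ} (O : Set E) (u : Fin N → E → ℝ)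
    (hO : IsOpen O) (hH : ∀ j, Harm O (u j)) (p : E) (ρ : ℝ)
    (hsub : ∀ x, cx x ∈ ball (cx p) ρ → x ∈ O) (hx : ∀ j, HX p ρ (u j))
    (b : Fin N × Fin N × Fin N) (l : List (Fin N)) : HX p ρ (wd u b l) := by
  have hsm := (hI N O u hO hH).1
  have hpd : ∀ j k, HX p ρ (pd k (u j)) := fun j k => hP p ρ O (u j) k hO (hH j).1 hsub (hx j)
  induction l with
  | nil =>
    have e := hx_det hA p ρ ![fun k => pd k (u b.1), fun k => pd k (u b.2.1),
      fun k => pd k (u b.2.2)] (fun i j => by fin_cases i <;> exact hpd _ _)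
    refine (hA p ρ).2.2 _ _ e fun x _ => ?_
    show jac3 (u b.1) (u b.2.1) (u b.2.2) x = _
    unfold jac3
    congr 1
    ext i j
    fin_cases i <;> rfl
  | cons i l ih =>
    have e1 : ∀ k, HX p ρ (pd k (wd u b l)) := fun k => hP p ρ O _ k hO (hsm b l) hsub ih
    exact hx_sum3 hA p ρ (fun k x => pd k (u i) x * pd k (wd u b l) x) fun k =>
      ((hA p ρ).2.1 _ _ (hpd i k) (e1 k)).2

theorem iter_wd {N : ℕ} (u : Fin N → E → ℝ) (b : Fin N × Fin N × Fin N) (l : List (Fin N))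
    (i : Fin N) (k : ℕ) : (Lu (u i))^[k] (wd u b l) = wd u b (List.replicate k i ++ l) := by
  induction k with
  | zero => rfl
  | succ k ih =>
    rw [Function.iterate_succ', Function.comp, ih]
    rfl

end Pool.Agent.H27.IC
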