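import Mathlib
import Pool.Agent.H94.IC.Targets2
import Pool.Agent.H27.IC.Grad
import Pool.Agent.H27.IC.HXW

/-!
# IC: module INV, flow invariance of the invisible set
-/

open MeasureTheory Set Filter Topology Metric
open scoped ENNReal NNReal ContDiff RealInnerProductSpace Real

namespace Pool.Agent.H27.IC

open Pool.Agent.H94.IC

/-- functions all of whose derivatives vanish at `0` and are bounded by `M C^k k!` vanish -/
theorem taylor_zero (G : ℕ → ℝ → ℝ) (T M C : ℝ) (hC : 0 < C) (hCT : C * T < 1) (hM : 0 ≤ M)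
    (hG : ∀ k, ∀ s ∈ Ico 0 T, HasDerivAt (G k) (G (k + 1) s) s) (h0 : ∀ k, G k 0 = 0)
    (hb : ∀ k, ∀ s ∈ Ico 0 T, |G k s| ≤ M * C ^ k * k.factorial) :
    ∀ s ∈ Ico 0 T, G 0 s = 0 := by
  intro t ht
  have hP : ∀ j : ℕ, ∀ k : ℕ, ∀ s ∈ Icc 0 t,
      |G k s| ≤ M * C ^ (k + j) * (k + j).factorial / j.factorial * s ^ j := by
    intro j
    induction j with
    | zero =>
      intro k s hs
      have := hb k s ⟨hs.1, hs.2.trans_lt ht.2⟩
      simpa using this
    | succ j ih =>
      intro k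
      obtain ⟨K, hK⟩ : ∃ K, K = M * C ^ (k + 1 + j) * (k + 1 + j).factorial / j.factorial :=
        ⟨_, rfl⟩
      have key := image_norm_le_of_norm_deriv_right_le_deriv_boundary (f := G k)
        (f' := fun s => G (k + 1) s) (a := 0) (b := t) (B := fun s => K * (s ^ (j + 1) / (j + 1)))
        (B' := fun s => K * s ^ j) ?_ ?_ ?_ ?_ ?_
      · intro s hs
        have := key hs
        rw [Real.norm_eq_abs] at this
        refine this.trans (le_of_eq ?_)
        rw [hK, show k + 1 + j = k + (j + 1) by ring, Nat.factorial_succ j]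
        have h1 : (j.factorial : ℝ) ≠ 0 := by exact_mod_cast j.factorial_ne_zero
        have h2 : (j : ℝ) + 1 ≠ 0 := by positivity
        push_cast
        field_simp
      · intro s hs
        exact (hG k s ⟨hs.1, hs.2.trans_lt ht.2⟩).continuousAt.continuousWithinAt
      · intro s hs
        exact (hG k s ⟨hs.1, hs.2.trans ht.2⟩).hasDerivWithinAt
      · rw [h0]; simp
      · intro s
        have h1 : HasDerivAt (fun s : ℝ => s ^ (j + 1)) (((j + 1 : ℕ) : ℝ) * s ^ j) s := by
          have := hasDerivAt_pow (j + 1) s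
          simpa using this
        have h2 := (h1.div_const ((j : ℝ) + 1)).const_mul K
        have h3 : (j : ℝ) + 1 ≠ 0 := by positivity
        have e : K * (((j + 1 : ℕ) : ℝ) * s ^ j / ((j : ℝ) + 1)) = K * s ^ j := by
          push_cast; field_simp
        rw [e] at h2
        exact h2
      · intro s hs
        have := ih (k + 1) s ⟨hs.1, hs.2.le⟩
        rw [Real.norm_eq_abs, hK]
        exact this
  have h1 : ∀ j : ℕ, |G 0 t| ≤ M * (C * t) ^ j := by
    intro j
    have := hP j 0 t ⟨ht.1, le_rfl⟩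
    rw [Nat.zero_add] at this
    refine this.trans (le_of_eq ?_)
    have h1 : (j.factorial : ℝ) ≠ 0 := by exact_mod_cast j.factorial_ne_zero
    rw [mul_pow]
    field_simp
  have h2 : Tendsto (fun j : ℕ => M * (C * t) ^ j) atTop (𝓝 (M * 0)) := by
    refine (tendsto_pow_atTop_nhds_zero_of_lt_one (mul_nonneg hC.le ht.1) ?_).const_mul M
    exact lt_of_le_of_lt (mul_le_mul_of_nonneg_left ht.2.le hC.le) hCT
  rw [mul_zero] at h2
  have h3 := ge_of_tendsto h2 (Eventually.of_forall h1)
  exact abs_eq_zero.1 (le_antisymm h3 (abs_nonneg _))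

/-- curves of bounded speed stay in the ball -/
theorem stay (γ γ' : ℝ → E) (p : E) (R B T : ℝ) (hB : 0 ≤ B) (hT : (B + 1) * T ≤ R / 2)
    (hγ : ∀ s ∈ Ico 0 T, HasDerivAt γ (γ' s) s) (h0 : ‖γ 0 - p‖ < R / 2)
    (hb : ∀ s ∈ Ico 0 T, ‖γ s - p‖ < R → ‖γ' s‖ ≤ B) : ∀ s ∈ Ico 0 T, ‖γ s - p‖ < R := by
  intro t ht
  have key := image_norm_le_of_norm_deriv_right_lt_deriv_boundary (f := fun s => γ s - p)
    (f' := γ') (a := 0) (b := t) (B := fun s => ‖γ 0 - p‖ + (B + 1) * s)
    (B' := fun _ => B + 1) ?_ ?_ ?_ ?_ ?_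
  · have h1 := key ⟨ht.1, le_rfl⟩
    have h2 : (B + 1) * t ≤ (B + 1) * T := mul_le_mul_of_nonneg_left ht.2.le (by linarith)
    linarith
  · intro s hs
    exact ((hγ s ⟨hs.1, hs.2.trans_lt ht.2⟩).sub_const p).continuousAt.continuousWithinAt
  · intro s hs
    exact ((hγ s ⟨hs.1, hs.2.trans ht.2⟩).sub_const p).hasDerivWithinAt
  · simp
  · intro s
    have := ((hasDerivAt_id s).const_mul (B + 1)).const_add ‖γ 0 - p‖
    simpa using this
  · intro s hs he
    have h2 : (B + 1) * s ≤ (B + 1) * T :=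
      mul_le_mul_of_nonneg_left (hs.2.trans ht.2).le (by linarith)
    have h3 : ‖γ s - p‖ < R := by
      linarith
    have := hb s ⟨hs.1, hs.2.trans ht.2⟩ h3
    linarith

theorem inv (hN : T_NAG) (hA : T_HXA) (hP : T_HXP) (hR : T_HRX) (hI : T_INC) : T_INV := by
  intro N O u i p hO hp hH
  have hsm := (hI N O u hO hH).1
  obtain ⟨r1, hr1, hr1O⟩ := Metric.isOpen_iff.1 hO p hp
  have hρ : 0 < r1 / 16 := by positivity
  have hsub : ∀ x, cx x ∈ ball (cx p) (r1 / 16) → x ∈ O := by
    intro x hx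
    exact hr1O (ball_subset_ball (by linarith) (cx_ball x p _ hx))
  have hx : ∀ j, HX p (r1 / 16) (u j) := fun j => hR O (u j) p r1 (hH j) hr1 hr1O
  obtain ⟨C, r', hC, hr', hNag⟩ := hN O (u i) p (r1 / 16) hO (hH i).1 hρ hsub (hx i)
  -- bound of the speed
  have hK : IsCompact (closedBall p (r1 / 2)) := isCompact_closedBall _ _
  have hKO : closedBall p (r1 / 2) ⊆ O := (closedBall_subset_ball (by linarith)).trans hr1O
  have hcf : ContinuousOn (fderiv ℝ (u i)) O := (hH i).1.continuousOn_fderiv_of_isOpen hO (by simp)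
  obtain ⟨B, hB⟩ := hK.exists_bound_of_continuousOn (hcf.mono hKO)
  have hB0 : 0 ≤ B := (norm_nonneg _).trans (hB p (mem_closedBall_self (by positivity)))
  have hgr : ∀ x, ‖gr (u i) x‖ = ‖fderiv ℝ (u i) x‖ := by
    intro x; unfold gr gradient; exact LinearIsometryEquiv.norm_map _ _
  obtain ⟨R, hRdef⟩ : ∃ R, R = min r' (r1 / 2) := ⟨_, rfl⟩
  have hRpos : 0 < R := by rw [hRdef]; exact lt_min hr' (by positivity)
  have hRr' : R ≤ r' := by rw [hRdef]; exact min_le_left _ _
  have hRr1 : R ≤ r1 / 2 := by rw [hRdef]; exact min_le_right _ _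
  obtain ⟨t0, ht0⟩ : ∃ t0, t0 = min (R / (2 * (B + 1))) (1 / (2 * C)) := ⟨_, rfl⟩
  have ht0pos : 0 < t0 := by rw [ht0]; exact lt_min (by positivity) (by positivity)
  have ht0B : (B + 1) * t0 ≤ R / 2 := by
    have : t0 ≤ R / (2 * (B + 1)) := by rw [ht0]; exact min_le_left _ _
    calc (B + 1) * t0 ≤ (B + 1) * (R / (2 * (B + 1))) :=
          mul_le_mul_of_nonneg_left this (by positivity)
      _ = R / 2 := by field_simp
  have ht0C : C * t0 < 1 := by
    have : t0 ≤ 1 / (2 * C) := by rw [ht0]; exact min_le_right _ _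
    calc C * t0 ≤ C * (1 / (2 * C)) := mul_le_mul_of_nonneg_left this hC.le
      _ = 1 / 2 := by field_simp
      _ < 1 := by norm_num
  refine ⟨R / 2, t0, by positivity, ht0pos, (ball_subset_ball (by linarith)).trans hr1O, ?_⟩
  intro γ hγ hγ0 hinv
  rw [mem_ball, dist_eq_norm] at hγ0
  -- both directions
  have dir : ∀ ε : ℝ, ε = 1 ∨ ε = -1 → ∀ s ∈ Ico 0 t0, γ (ε * s) ∈ Inv O u := by
    intro ε hε
    have hεabs : |ε| = 1 := by rcases hε with h | h <;> rw [h] <;> simp
    have hmem : ∀ s ∈ Ico 0 t0, ε * s ∈ Ioo (-t0) t0 := by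
      intro s hs
      rcases hε with h | h
      · rw [h, one_mul]; exact ⟨by linarith [hs.1], hs.2⟩
      · rw [h]; exact ⟨by linarith [hs.2], by linarith [hs.1]⟩
    have hd : ∀ s ∈ Ico 0 t0, HasDerivAt (fun s => γ (ε * s)) (ε • gr (u i) (γ (ε * s))) s := by
      intro s hs
      have h1 : HasDerivAt (fun s : ℝ => ε * s) ε s := by
        simpa using (hasDerivAt_id s).const_mul ε
      exact (hγ _ (hmem s hs)).scomp s h1
    have hst := stay (fun s => γ (ε * s)) (fun s => ε • gr (u i) (γ (ε * s))) p R B t0 hB0 ht0B hd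
      (by simpa using hγ0) (by
        intro s hs hlt
        rw [norm_smul, Real.norm_eq_abs, hεabs, one_mul, hgr]
        refine hB _ ?_
        rw [mem_closedBall, dist_eq_norm]
        linarith)
    intro s hs
    have hsO : ∀ s ∈ Ico 0 t0, γ (ε * s) ∈ O := by
      intro s hs
      refine hr1O ?_
      rw [mem_ball, dist_eq_norm]
      have := hst s hs
      linarith
    refine ⟨hsO s hs, fun b l => ?_⟩
    obtain ⟨M, hM, hMb⟩ := hNag (wd u b l) (hsm b l)
      (hx_wd hA hP hI O u hO hH p (r1 / 16) hsub hx b l)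
    have key := taylor_zero (fun k s => ε ^ k * (Lu (u i))^[k] (wd u b l) (γ (ε * s))) t0 M C hC
      ht0C hM ?_ ?_ ?_ s hs
    · simpa using key
    · intro k s hs
      have hdiff : DifferentiableAt ℝ ((Lu (u i))^[k] (wd u b l)) (γ (ε * s)) := by
        rw [iter_wd]
        exact ((hsm b _).contDiffAt (hO.mem_nhds (hsO s hs))).differentiableAt (by simp)
      have h1 := (hdiff.hasFDerivAt.comp_hasDerivAt s (hd s hs)).const_mul (ε ^ k)
      have h2 : ε ^ k * (fderiv ℝ ((Lu (u i))^[k] (wd u b l)) (γ (ε * s)))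
          (ε • gr (u i) (γ (ε * s)))
          = ε ^ (k + 1) * (Lu (u i))^[k + 1] (wd u b l) (γ (ε * s)) := by
        rw [map_smul, ← Lu_eq, Function.iterate_succ', Function.comp, smul_eq_mul]
        ring
      rw [h2] at h1
      exact h1
    · intro k
      show ε ^ k * (Lu (u i))^[k] (wd u b l) (γ (ε * 0)) = 0
      rw [mul_zero, iter_wd, hinv.2, mul_zero]
    · intro k s hs
      rw [abs_mul, abs_pow, hεabs, one_pow, one_mul]
      refine hMb k _ ?_
      rw [mem_ball, dist_eq_norm]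
      have := hst s hs
      linarith
  intro t ht
  rcases le_total 0 t with h | h
  · have := dir 1 (Or.inl rfl) t ⟨h, ht.2⟩
    rwa [one_mul] at this
  · have := dir (-1) (Or.inr rfl) (-t) ⟨by linarith, by linarith [ht.1]⟩
    rwa [neg_mul, one_mul, neg_neg] at this

end Pool.Agent.H27.IC
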