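import Mathlib
import Pool.Agent.H94.IC.Targets1
import Pool.Agent.H65.VG.SMO
import Pool.Agent.H27.IC.GHC

/-!
# IC: module PSA, power sums depend analytically on the parameters
-/

open MeasureTheory Set Filter Topology Metric
open scoped ENNReal NNReal ContDiff RealInnerProductSpace Real

namespace Pool.Agent.H27.IC

open Pool.Agent.H94.IC

/-- the embedding of the parameters -/
noncomputable def Lp : ℂ × ℂ →L[ℂ] C3 :=
  (ContinuousLinearMap.fst ℂ ℂ ℂ).smulRight (Pi.single 0 1 : C3) +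
    (ContinuousLinearMap.snd ℂ ℂ ℂ).smulRight (Pi.single 1 1 : C3)

theorem Lp_eq (x : ℂ × ℂ) (z : ℂ) : (![x.1, x.2, z] : C3) = Lp x + z • (Pi.single 2 1 : C3) := by
  funext i; fin_cases i <;> simp [Lp]

/-- the coefficient -/
noncomputable def qc (c : ℂ) (R : ℝ) (k : ℕ) (θ : ℝ) : ℂ :=
  (2 * π * Complex.I : ℂ)⁻¹ * (deriv (circleMap c R) θ * (circleMap c R θ) ^ k)

theorem qc_cont (c : ℂ) (R : ℝ) (k : ℕ) : Continuous (qc c R k) := by
  unfold qc
  refine continuous_const.mul ?_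
  refine Continuous.mul ?_ ((continuous_circleMap c R).pow k)
  have h : deriv (circleMap c R) = fun θ => circleMap 0 R θ * Complex.I :=
    funext (fun θ => deriv_circleMap c R θ)
  rw [h]
  exact (continuous_circleMap 0 R).mul continuous_const

theorem psa : T_PSA := by
  intro F ρ c R a0 r k hF hR hr hc h1 h2 hne a ha1 ha2
  have hd : DifferentiableOn ℂ F (ball 0 ρ) := osgood isOpen_ball hF
  obtain ⟨F2, hF2⟩ : ∃ F2 : C3 → ℂ, F2 = fun z => fderiv ℂ F z (Pi.single 2 1) := ⟨_, rfl⟩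
  have hd2 : DifferentiableOn ℂ F2 (ball 0 ρ) := by
    rw [hF2]
    exact Pool.Agent.H65.VG.differentiableOn_dir (n := 3) isOpen_ball hd _
  obtain ⟨V, hV⟩ : ∃ V : Set C3, V = ball 0 ρ ∩ F ⁻¹' {0}ᶜ := ⟨_, rfl⟩
  have hVo : IsOpen V := by
    rw [hV]; exact hd.continuousOn.isOpen_inter_preimage isOpen_ball isOpen_compl_singleton
  obtain ⟨H, hH⟩ : ∃ H : C3 → ℂ, H = fun z => F2 z / F z := ⟨_, rfl⟩
  have hVb : V ⊆ ball 0 ρ := by rw [hV]; exact inter_subset_left
  have hdH : DifferentiableOn ℂ H V := by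
    rw [hH]
    simp_rw [div_eq_mul_inv]
    refine (hd2.mono hVb).mul ((hd.mono hVb).inv fun z hz => ?_)
    rw [hV] at hz; exact hz.2
  have hcf : ContinuousOn (fderiv ℂ H) V :=
    Pool.Agent.H65.VG.continuousOn_fderiv (n := 3) hVo hdH
  obtain ⟨P, hP⟩ : ∃ P : Set (ℂ × ℂ), P = {x : ℂ × ℂ |
      ‖x.1 - (a0.1 : ℂ)‖ < r ∧ ‖x.2 - (a0.2 : ℂ)‖ < r} := ⟨_, rfl⟩
  have hPo : IsOpen P := by
    rw [hP]
    have c1 : Continuous fun x : ℂ × ℂ => ‖x.1 - (a0.1 : ℂ)‖ := by fun_prop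
    have c2 : Continuous fun x : ℂ × ℂ => ‖x.2 - (a0.2 : ℂ)‖ := by fun_prop
    exact (isOpen_lt c1 continuous_const).inter (isOpen_lt c2 continuous_const)
  have haP : a ∈ P := by rw [hP]; exact ⟨ha1, ha2⟩
  have hball : ∀ x ∈ P, ∀ z : ℂ, ‖z - c‖ ≤ R → (![x.1, x.2, z] : C3) ∈ ball (0 : C3) ρ := by
    intro x hx z hz
    rw [hP] at hx
    have hρ : 0 < ρ := by
      have := abs_nonneg c
      linarith
    rw [mem_ball, dist_zero_right, pi_norm_lt_iff hρ]
    have e1 : ‖x.1‖ < ρ := by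
      calc ‖x.1‖ = ‖(x.1 - (a0.1 : ℂ)) + (a0.1 : ℂ)‖ := by ring_nf
        _ ≤ ‖x.1 - (a0.1 : ℂ)‖ + ‖(a0.1 : ℂ)‖ := norm_add_le _ _
        _ < r + |a0.1| := by rw [Complex.norm_real, Real.norm_eq_abs]; linarith [hx.1]
        _ ≤ ρ := by linarith
    have e2 : ‖x.2‖ < ρ := by
      calc ‖x.2‖ = ‖(x.2 - (a0.2 : ℂ)) + (a0.2 : ℂ)‖ := by ring_nf
        _ ≤ ‖x.2 - (a0.2 : ℂ)‖ + ‖(a0.2 : ℂ)‖ := norm_add_le _ _
        _ < r + |a0.2| := by rw [Complex.norm_real, Real.norm_eq_abs]; linarith [hx.2]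
        _ ≤ ρ := by linarith
    have e3 : ‖z‖ < ρ := by
      calc ‖z‖ = ‖(z - c) + c‖ := by ring_nf
        _ ≤ ‖z - c‖ + ‖(c : ℂ)‖ := norm_add_le _ _
        _ ≤ R + |c| := by rw [Complex.norm_real, Real.norm_eq_abs]; linarith
        _ < ρ := by linarith
    intro i
    fin_cases i
    · exact e1
    · exact e2
    · exact e3
  have hsph : ∀ θ : ℝ, ‖circleMap (c : ℂ) R θ - c‖ ≤ R := by
    intro θ
    have := circleMap_mem_sphere (c : ℂ) hR.le θ
    rw [mem_sphere, dist_eq_norm] at this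
    exact this.le
  have hinV : ∀ x ∈ P, ∀ z ∈ sphere (c : ℂ) R,
      Lp x + z • (Pi.single 2 1 : C3) ∈ V := by
    intro x hx z hz
    rw [← Lp_eq, hV]
    have hz' : ‖z - c‖ ≤ R := by rw [mem_sphere, dist_eq_norm] at hz; exact hz.le
    refine ⟨hball x hx z hz', ?_⟩
    rw [hP] at hx
    exact hne x hx.1 hx.2 z hz
  -- formula for psum
  have hps : ∀ x ∈ P, psum F c R k x = ∫ θ in (0 : ℝ)..2 * π,
      qc c R k θ • H (Lp x + circleMap (c : ℂ) R θ • (Pi.single 2 1 : C3)) := by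
    intro x hx
    unfold psum circleIntegral
    rw [← intervalIntegral.integral_const_mul]
    apply intervalIntegral.integral_congr
    intro θ _
    have hm := hball x hx _ (hsph θ)
    have hder : deriv (fun w : ℂ => F ![x.1, x.2, w]) (circleMap (c : ℂ) R θ)
        = F2 ![x.1, x.2, circleMap (c : ℂ) R θ] := by
      have g1 : HasDerivAt (fun w : ℂ => (![x.1, x.2, w] : C3)) (Pi.single 2 1 : C3)
          (circleMap (c : ℂ) R θ) := by
        have : (fun w : ℂ => (![x.1, x.2, w] : C3))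
            = fun w : ℂ => Lp x + w • (Pi.single 2 1 : C3) := funext fun w => Lp_eq x w
        rw [this]
        have := ((hasDerivAt_id (circleMap (c : ℂ) R θ)).smul_const
          (Pi.single 2 1 : C3)).const_add (Lp x)
        simpa using this
      have g2 : HasFDerivAt F (fderiv ℂ F ![x.1, x.2, circleMap (c : ℂ) R θ])
          ![x.1, x.2, circleMap (c : ℂ) R θ] :=
        (hd.differentiableAt (isOpen_ball.mem_nhds hm)).hasFDerivAt
      have g3 := g2.comp_hasDerivAt (circleMap (c : ℂ) R θ) g1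
      rw [hF2]
      exact g3.deriv
    show (2 * ↑π * Complex.I)⁻¹ * (deriv (circleMap (c : ℂ) R) θ • (circleMap (c : ℂ) R θ ^ k *
      (deriv (fun w : ℂ => F ![x.1, x.2, w]) (circleMap (c : ℂ) R θ) /
        F ![x.1, x.2, circleMap (c : ℂ) R θ]))) = qc c R k θ •
          H (Lp x + circleMap (c : ℂ) R θ • (Pi.single 2 1 : C3))
    rw [hder, ← Lp_eq, hH]
    simp only [qc, smul_eq_mul]
    ring
  -- compact neighbourhood
  obtain ⟨δ, hδ, hδP⟩ := Metric.isOpen_iff.1 hPo a haP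
  have hK1 : IsCompact (closedBall a (δ / 2)) := isCompact_closedBall _ _
  have hKP : closedBall a (δ / 2) ⊆ P := (closedBall_subset_ball (by linarith)).trans hδP
  have hKc : IsCompact ((fun p : (ℂ × ℂ) × ℂ => Lp p.1 + p.2 • (Pi.single 2 1 : C3)) ''
      (closedBall a (δ / 2) ×ˢ sphere (c : ℂ) R)) :=
    (hK1.prod (isCompact_sphere _ _)).image (by fun_prop)
  have hKV : ((fun p : (ℂ × ℂ) × ℂ => Lp p.1 + p.2 • (Pi.single 2 1 : C3)) ''
      (closedBall a (δ / 2) ×ˢ sphere (c : ℂ) R)) ⊆ V := by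
    rintro _ ⟨p, hp, rfl⟩
    exact hinV p.1 (hKP hp.1) p.2 hp.2
  obtain ⟨M, hM⟩ := hKc.exists_bound_of_continuousOn (hcf.mono hKV)
  have hcar : ∀ x : ℂ × ℂ, Continuous fun θ : ℝ =>
      Lp x + circleMap (c : ℂ) R θ • (Pi.single 2 1 : C3) := by
    intro x
    have := continuous_circleMap (c : ℂ) R
    fun_prop
  have hnhds : closedBall a (δ / 2) ∈ 𝓝 a := closedBall_mem_nhds a (by linarith)
  have hcm : ∀ θ : ℝ, circleMap (c : ℂ) R θ ∈ sphere (c : ℂ) R := fun θ =>
    circleMap_mem_sphere (c : ℂ) hR.le θ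
  have hev : (fun x => ∫ θ in (0 : ℝ)..2 * π,
      qc c R k θ • H (Lp x + circleMap (c : ℂ) R θ • (Pi.single 2 1 : C3)))
      =ᶠ[𝓝 a] fun x => psum F c R k x := by
    filter_upwards [hnhds] with x hx
    exact (hps x (hKP hx)).symm
  have hdd := intervalIntegral.hasFDerivAt_integral_of_dominated_of_fderiv_le (𝕜 := ℂ)
    (μ := volume) (a := 0) (b := 2 * π) (s := closedBall a (δ / 2)) (x₀ := a)
    (F := fun x θ => qc c R k θ • H (Lp x + circleMap (c : ℂ) R θ • (Pi.single 2 1 : C3)))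
    (F' := fun x θ => qc c R k θ •
      (fderiv ℂ H (Lp x + circleMap (c : ℂ) R θ • (Pi.single 2 1 : C3))).comp Lp)
    (bound := fun θ => ‖qc c R k θ‖ * (M * ‖Lp‖)) hnhds ?_ ?_ ?_ ?_ ?_ ?_
  · have hdiff : DifferentiableAt ℂ (psum F c R k) a :=
      (hdd.differentiableAt).congr_of_eventuallyEq hev.symm
    refine ⟨hdiff.continuousAt, fun b => ?_⟩
    have h3 : DifferentiableAt ℂ (psum F c R k) (a + (0 : ℂ) • b) := by
      rw [zero_smul, add_zero]; exact hdiff
    exact DifferentiableAt.comp (0 : ℂ) (g := psum F c R k) (f := fun t : ℂ => a + t • b) h3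
      (by fun_prop)
  · filter_upwards [hnhds] with x hx
    apply Continuous.aestronglyMeasurable
    refine (qc_cont _ _ _).smul ?_
    exact hdH.continuousOn.comp_continuous (hcar x) fun θ => hinV x (hKP hx) _ (hcm θ)
  · apply Continuous.intervalIntegrable
    refine (qc_cont _ _ _).smul ?_
    exact hdH.continuousOn.comp_continuous (hcar a) fun θ => hinV a haP _ (hcm θ)
  · apply Continuous.aestronglyMeasurable
    refine (qc_cont _ _ _).smul ?_
    have h4 : Continuous fun θ : ℝ =>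
        fderiv ℂ H (Lp a + circleMap (c : ℂ) R θ • (Pi.single 2 1 : C3)) :=
      hcf.comp_continuous (hcar a) fun θ => hinV a haP _ (hcm θ)
    exact h4.clm_comp continuous_const
  · refine Eventually.of_forall fun θ _ x hx => ?_
    rw [norm_smul]
    refine mul_le_mul_of_nonneg_left ?_ (norm_nonneg _)
    refine (ContinuousLinearMap.opNorm_comp_le _ _).trans ?_
    refine mul_le_mul_of_nonneg_right ?_ (norm_nonneg _)
    exact hM _ ⟨(x, circleMap (c : ℂ) R θ), ⟨hx, hcm θ⟩, rfl⟩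
  · exact (((qc_cont _ _ _).norm).mul continuous_const).intervalIntegrable _ _
  · refine Eventually.of_forall fun θ _ x hx => ?_
    have g1 := hinV x (hKP hx) _ (hcm θ)
    have g2 : HasFDerivAt H (fderiv ℂ H (Lp x + circleMap (c : ℂ) R θ • (Pi.single 2 1 : C3)))
        (Lp x + circleMap (c : ℂ) R θ • (Pi.single 2 1 : C3)) :=
      ((hdH _ g1).differentiableAt (hVo.mem_nhds g1)).hasFDerivAt
    have g3 : HasFDerivAt (fun x : ℂ × ℂ => Lp x + circleMap (c : ℂ) R θ •
        (Pi.single 2 1 : C3)) Lp x := Lp.hasFDerivAt.add_const _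
    have g4 := g2.comp x g3
    exact g4.const_smul (qc c R k θ)

end Pool.Agent.H27.IC
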