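import Mathlib
import Pool.Agent.H94.IC.Targets2
import Pool.Agent.H27.IC.Grad

/-!
# IC: module SIY, surfaces to which all gradients are tangent are invisible
-/

open MeasureTheory Set Filter Topology Metric
open scoped ENNReal NNReal ContDiff RealInnerProductSpace Real

namespace Pool.Agent.H27.IC

open Pool.Agent.H94.IC

section chart

variable (Ψ : OpenPartialHomeomorph E E) (h1 : ContDiffOn ℝ ∞ Ψ Ψ.source)
  (h2 : ContDiffOn ℝ ∞ Ψ.symm Ψ.target)

include h1 in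
theorem chart_diff (q : E) (hq : q ∈ Ψ.source) : DifferentiableAt ℝ Ψ q :=
  (h1.contDiffAt (Ψ.open_source.mem_nhds hq)).differentiableAt (by simp)

include h2 in
theorem chart_symm_diff (q : E) (hq : q ∈ Ψ.source) : DifferentiableAt ℝ Ψ.symm (Ψ q) :=
  (h2.contDiffAt (Ψ.open_target.mem_nhds (Ψ.map_source hq))).differentiableAt (by simp)

include h1 h2 in
theorem chart_inv (q : E) (hq : q ∈ Ψ.source) (v : E) :
    fderiv ℝ Ψ.symm (Ψ q) (fderiv ℝ Ψ q v) = v := by
  have d1 := (chart_diff Ψ h1 q hq).hasFDerivAt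
  have d2 := (chart_symm_diff Ψ h2 q hq).hasFDerivAt
  have d3 := d2.comp q d1
  have d4 : HasFDerivAt (Ψ.symm ∘ Ψ) (ContinuousLinearMap.id ℝ E) q := by
    refine (hasFDerivAt_id q).congr_of_eventuallyEq ?_
    filter_upwards [Ψ.open_source.mem_nhds hq] with x hx
    exact Ψ.left_inv hx
  have := d3.unique d4
  exact congrArg (fun L : E →L[ℝ] E => L v) this

include h1 h2 in
theorem chart_inv' (q : E) (hq : q ∈ Ψ.source) (w : E) :
    fderiv ℝ Ψ q (fderiv ℝ Ψ.symm (Ψ q) w) = w := by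
  have d1 : HasFDerivAt Ψ (fderiv ℝ Ψ q) (Ψ.symm (Ψ q)) := by
    rw [Ψ.left_inv hq]; exact (chart_diff Ψ h1 q hq).hasFDerivAt
  have d2 := (chart_symm_diff Ψ h2 q hq).hasFDerivAt
  have d3 := d1.comp (Ψ q) d2
  have d4 : HasFDerivAt (Ψ ∘ Ψ.symm) (ContinuousLinearMap.id ℝ E) (Ψ q) := by
    refine (hasFDerivAt_id (Ψ q)).congr_of_eventuallyEq ?_
    filter_upwards [Ψ.open_target.mem_nhds (Ψ.map_source hq)] with x hx
    exact Ψ.right_inv hx
  have := d3.unique d4
  exact congrArg (fun L : E →L[ℝ] E => L w) this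

include h1 in
theorem fderiv_t (q : E) (hq : q ∈ Ψ.source) (v : E) :
    fderiv ℝ (fun x => (Ψ x) 2) q v = (fderiv ℝ Ψ q v) 2 := by
  have d1 := (chart_diff Ψ h1 q hq).hasFDerivAt
  have d2 : HasFDerivAt (fun x => (Ψ x) 2)
      ((EuclideanSpace.proj (2 : Fin 3) : E →L[ℝ] ℝ).comp (fderiv ℝ Ψ q)) q :=
    (EuclideanSpace.proj (2 : Fin 3) : E →L[ℝ] ℝ).hasFDerivAt.comp q d1
  rw [d2.fderiv]
  rfl

include h1 h2 in
/-- functions which vanish on the surface have vanishing tangential derivatives -/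
theorem tang (f : E → ℝ) (q : E) (hq : q ∈ Ψ.source) (hq0 : (Ψ q) 2 = 0)
    (hf : DifferentiableAt ℝ f q) (hz : ∀ x ∈ Ψ.source, (Ψ x) 2 = 0 → f x = 0) (v : E)
    (hv : fderiv ℝ (fun x => (Ψ x) 2) q v = 0) : fderiv ℝ f q v = 0 := by
  rw [fderiv_t Ψ h1 q hq] at hv
  obtain ⟨w, hw⟩ : ∃ w, w = fderiv ℝ Ψ q v := ⟨_, rfl⟩
  rw [← hw] at hv
  have hcur : HasDerivAt (fun s : ℝ => Ψ q + s • w) w 0 := by
    have := ((hasDerivAt_id (0 : ℝ)).smul_const w).const_add (Ψ q)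
    simpa using this
  have hc0 : Ψ q + (0 : ℝ) • w = Ψ q := by simp
  have d2 : HasFDerivAt Ψ.symm (fderiv ℝ Ψ.symm (Ψ q)) (Ψ q + (0 : ℝ) • w) := by
    rw [hc0]; exact (chart_symm_diff Ψ h2 q hq).hasFDerivAt
  have d3 : HasDerivAt (fun s : ℝ => Ψ.symm (Ψ q + s • w)) v 0 := by
    have := d2.comp_hasDerivAt (0 : ℝ) hcur
    rw [hw, chart_inv Ψ h1 h2 q hq, ← hw] at this
    exact this
  have d4 : HasFDerivAt f (fderiv ℝ f q) (Ψ.symm (Ψ q + (0 : ℝ) • w)) := by
    rw [hc0, Ψ.left_inv hq]; exact hf.hasFDerivAt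
  have d5 : HasDerivAt (fun s : ℝ => f (Ψ.symm (Ψ q + s • w))) (fderiv ℝ f q v) 0 :=
    d4.comp_hasDerivAt (0 : ℝ) d3
  have hev : (fun s : ℝ => f (Ψ.symm (Ψ q + s • w))) =ᶠ[𝓝 0] fun _ => 0 := by
    have hcc : ContinuousAt (fun s : ℝ => Ψ q + s • w) 0 := hcur.continuousAt
    have hm : Ψ.target ∈ 𝓝 (Ψ q + (0 : ℝ) • w) := by
      rw [hc0]; exact Ψ.open_target.mem_nhds (Ψ.map_source hq)
    filter_upwards [hcc.preimage_mem_nhds hm] with s hs
    refine hz _ (Ψ.map_target hs) ?_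
    rw [Ψ.right_inv hs]
    show (Ψ q) 2 + s * w 2 = 0
    rw [hq0, hv]; ring
  have d6 : HasDerivAt (fun s : ℝ => f (Ψ.symm (Ψ q + s • w))) 0 0 :=
    (hasDerivAt_const (0 : ℝ) (0 : ℝ)).congr_of_eventuallyEq hev
  exact d5.unique d6

include h1 h2 in
theorem gr_t_ne (q : E) (hq : q ∈ Ψ.source) : gr (fun x => (Ψ x) 2) q ≠ 0 := by
  intro h0
  have e1 := gr_inner (fun x => (Ψ x) 2) q (fderiv ℝ Ψ.symm (Ψ q) (ev 2))
  rw [h0, inner_zero_left, fderiv_t Ψ h1 q hq, chart_inv' Ψ h1 h2 q hq] at e1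
  simp at e1

end chart

theorem siy (h : T_INC) : T_SIY := by
  intro N O u Ψ hO hH hsub h1 h2 hg
  have hsm := (h N O u hO hH).1
  have key : ∀ (b : Fin N × Fin N × Fin N) (l : List (Fin N)), ∀ q ∈ Ψ.source, (Ψ q) 2 = 0 →
      wd u b l q = 0 := by
    intro b l
    induction l with
    | nil =>
      intro q hq hq0
      show jac3 (u b.1) (u b.2.1) (u b.2.2) q = 0
      unfold jac3
      rw [← Matrix.exists_mulVec_eq_zero_iff]
      refine ⟨fun k => (gr (fun x => (Ψ x) 2) q) k, ?_, ?_⟩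
      · intro h0
        apply gr_t_ne Ψ h1 h2 q hq
        ext k
        exact congrFun h0 k
      · have hrow : ∀ j, ∑ k, pd k (u j) q * (gr (fun x => (Ψ x) 2) q) k = 0 := by
          intro j
          have := hg j q hq hq0
          rw [inner_eq] at this
          rw [← this]
          exact Finset.sum_congr rfl fun k _ => by rw [← gr_apply (u j)]
        funext i
        fin_cases i
        · exact hrow b.1
        · exact hrow b.2.1
        · exact hrow b.2.2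
    | cons i l ih =>
      intro q hq hq0
      show Lu (u i) (wd u b l) q = 0
      rw [Lu_eq]
      have hd : DifferentiableAt ℝ (wd u b l) q :=
        ((hsm b l).contDiffAt (hO.mem_nhds (hsub hq))).differentiableAt (by simp)
      refine tang Ψ h1 h2 (wd u b l) q hq hq0 hd ih _ ?_
      rw [← gr_inner, real_inner_comm]
      exact hg i q hq hq0
  intro q hq hq0
  exact ⟨hsub hq, fun b l => key b l q hq hq0⟩

end Pool.Agent.H27.IC
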